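import Pool.Agent.Helper21.LQ.Defs

set_option autoImplicit false

/-!
# EXT : precolouring extension, from the local list theorem CORE
-/

namespace Pool.Agent.Helper21.LQ

open Finset

/-- listing of a finite set of edges -/
lemma ext_list {V : Type} [DecidableEq V] [Nonempty V] (S : Finset (Sym2 V)) :
    ∃ v w : ℕ → V, (∀ j < S.card, s(v j, w j) ∈ S) ∧
      (∀ i < S.card, ∀ j < S.card, i ≠ j → s(v i, w i) ≠ s(v j, w j)) ∧
      (∀ e ∈ S, ∃ j < S.card, s(v j, w j) = e) := by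
  classical
  have h : ∀ j : ℕ, ∃ p : V × V, ∀ h : j < S.card,
      s(p.1, p.2) = ((S.equivFin.symm ⟨j, h⟩ : {x // x ∈ S}) : Sym2 V) := by
    intro j
    by_cases h : j < S.card
    · obtain ⟨p, hp⟩ := Quot.exists_rep ((S.equivFin.symm ⟨j, h⟩ : {x // x ∈ S}) : Sym2 V)
      exact ⟨p, fun _ => hp⟩
    · exact ⟨Classical.arbitrary _, fun h' => absurd h' h⟩
  choose p hp using h
  refine ⟨fun j => (p j).1, fun j => (p j).2, ?_, ?_, ?_⟩
  · intro j hj
    rw [hp j hj]
    exact (S.equivFin.symm ⟨j, hj⟩).2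
  · intro i hi j hj hij h
    rw [hp i hi, hp j hj] at h
    have h1 := Subtype.ext h
    have h2 := S.equivFin.symm.injective h1
    exact hij (by simpa using h2)
  · intro e he
    refine ⟨(S.equivFin ⟨e, he⟩).val, (S.equivFin ⟨e, he⟩).isLt, ?_⟩
    rw [hp _ (S.equivFin ⟨e, he⟩).isLt]
    simp

lemma ext_deg {V : Type} [Fintype V] [DecidableEq V] (G : SimpleGraph V) [DecidableRel G.Adj]
    (T : Finset V) (M : ℕ) (v w : ℕ → V)
    (h1 : ∀ j < M, G.Adj (v j) (w j) ∧ v j ∉ T ∧ w j ∉ T)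
    (h2 : ∀ i < M, ∀ j < M, i ≠ j → s(v i, w i) ≠ s(v j, w j)) (r : V) :
    ((range M).filter (fun j => v j = r ∨ w j = r)).card ≤
      ((G.neighborFinset r).filter (fun u => u ∉ T)).card := by
  apply Finset.card_le_card_of_injOn (fun j => if v j = r then w j else v j)
  · intro j hj
    rw [Finset.mem_coe, mem_filter, mem_range] at hj
    rw [Finset.mem_coe, mem_filter, SimpleGraph.mem_neighborFinset]
    obtain ⟨ha, hv, hw⟩ := h1 j hj.1
    by_cases hvr : v j = r
    · simp only [if_pos hvr]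
      exact ⟨by rw [← hvr]; exact ha, hw⟩
    · simp only [if_neg hvr]
      have hwr : w j = r := hj.2.resolve_left hvr
      exact ⟨by rw [← hwr]; exact ha.symm, hv⟩
  · intro i hi j hj hij
    rw [Finset.mem_coe, mem_filter, mem_range] at hi hj
    by_contra hne
    apply h2 i hi.1 j hj.1 hne
    simp only at hij
    by_cases hvi : v i = r
    · by_cases hvj : v j = r
      · rw [if_pos hvi, if_pos hvj] at hij
        rw [hvi, hvj, hij]
      · rw [if_pos hvi, if_neg hvj] at hij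
        have hwr : w j = r := hj.2.resolve_left hvj
        rw [hvi, hwr, hij, Sym2.eq_swap]
    · have hwi : w i = r := hi.2.resolve_left hvi
      by_cases hvj : v j = r
      · rw [if_neg hvi, if_pos hvj] at hij
        rw [hwi, hvj, hij, Sym2.eq_swap]
      · rw [if_neg hvi, if_neg hvj] at hij
        have hwr : w j = r := hj.2.resolve_left hvj
        rw [hwi, hwr, hij]

lemma ext_count (n g M : ℝ) (hn : 2 ≤ n) (hg0 : 0 ≤ g) (hg : g ≤ n ^ 3) (hM : M ≤ n ^ 2) :
    2 * n * g + M + 2 * n * n + 2 * n * g + 2 * n + n * g ^ 2 ≤ n ^ 11 := by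
  have h0 : (0 : ℝ) ≤ n := by linarith
  have h1 : n * g ≤ n * n ^ 3 := mul_le_mul_of_nonneg_left hg h0
  have h2 : g ^ 2 ≤ (n ^ 3) ^ 2 := pow_le_pow_left₀ hg0 hg 2
  have h3 : n * g ^ 2 ≤ n * (n ^ 3) ^ 2 := mul_le_mul_of_nonneg_left h2 h0
  have e1 : (1 : ℝ) ≤ n := by linarith
  have p3 : (8 : ℝ) ≤ n ^ 3 := by
    have : (2 : ℝ) ^ 3 ≤ n ^ 3 := pow_le_pow_left₀ (by norm_num) hn 3
    linarith
  have p4 : (16 : ℝ) ≤ n ^ 4 := by
    have : (2 : ℝ) ^ 4 ≤ n ^ 4 := pow_le_pow_left₀ (by norm_num) hn 4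
    linarith
  have q7 : (0 : ℝ) ≤ n ^ 7 := pow_nonneg h0 7
  have q4 : (0 : ℝ) ≤ n ^ 4 := pow_nonneg h0 4
  have q2 : (0 : ℝ) ≤ n ^ 2 := pow_nonneg h0 2
  have a1 : 8 * n ^ 4 ≤ n ^ 7 := by
    have := mul_le_mul_of_nonneg_right p3 q4
    calc 8 * n ^ 4 ≤ n ^ 3 * n ^ 4 := this
      _ = n ^ 7 := by ring
  have a2 : n ^ 2 ≤ n ^ 4 := pow_le_pow_right₀ e1 (by norm_num)
  have a3 : n ≤ n ^ 4 := by
    calc n = n ^ 1 := (pow_one n).symm
      _ ≤ n ^ 4 := pow_le_pow_right₀ e1 (by norm_num)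
  have a4 : 16 * n ^ 7 ≤ n ^ 11 := by
    have := mul_le_mul_of_nonneg_right p4 q7
    calc 16 * n ^ 7 ≤ n ^ 4 * n ^ 7 := this
      _ = n ^ 11 := by ring
  have b1 : n * n ^ 3 = n ^ 4 := by ring
  have b2 : n * (n ^ 3) ^ 2 = n ^ 7 := by ring
  rw [b1] at h1
  rw [b2] at h3
  have b3 : 2 * n * g = 2 * (n * g) := by ring
  have b4 : 2 * n * n = 2 * n ^ 2 := by ring
  rw [b3, b4]
  linarith

lemma ext_symcard (V : Type) [Fintype V] [DecidableEq V] :
    Fintype.card (Sym2 V) ≤ Fintype.card V ^ 2 := by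
  rw [Sym2.card]
  have : (Fintype.card V + 1).choose 2 = (Fintype.card V + 1) * (Fintype.card V) / 2 := by
    rw [Nat.choose_two_right]; simp
  rw [this]
  rcases Nat.eq_zero_or_pos (Fintype.card V) with h | h
  · rw [h]; norm_num
  · apply Nat.div_le_of_le_mul
    nlinarith

/-- gluing the three kinds of edges to a colouring of all edges -/
lemma ext_glue {V : Type} [DecidableEq V] (G : SimpleGraph V) (T : Finset V) (U : Finset ℕ)
    (c₀ : Sym2 V → ℕ) (M : ℕ) (v w : ℕ → V) (f : V → V → Option {x // x ∈ U})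
    (g : ℕ → Option {x // x ∈ U})
    (hf : ∀ t ∈ T, ∀ r ∉ T, G.Adj t r → ∃ γ, f t r = some γ)
    (hg : ∀ j < M, ∃ γ, g j = some γ)
    (hlist : ∀ x ∉ T, ∀ y ∉ T, G.Adj x y → ∃ j < M, s(v j, w j) = s(x, y)) :
    ∃ c : Sym2 V → ℕ,
      (∀ x ∈ T, ∀ y ∈ T, G.Adj x y → c s(x, y) = c₀ s(x, y)) ∧
      (∀ x ∈ T, ∀ y ∉ T, G.Adj x y → ∃ h : c s(x, y) ∈ U, f x y = some ⟨c s(x, y), h⟩) ∧
      (∀ x ∉ T, ∀ y ∉ T, G.Adj x y → ∃ j < M, s(v j, w j) = s(x, y) ∧
        ∃ h : c s(x, y) ∈ U, g j = some ⟨c s(x, y), h⟩) := by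
  classical
  have hex : ∀ e : Sym2 V, ∃ γ : ℕ, ∀ x y, s(x, y) = e → G.Adj x y →
      (x ∈ T → y ∈ T → γ = c₀ e) ∧
      (x ∈ T → y ∉ T → ∃ h : γ ∈ U, f x y = some ⟨γ, h⟩) ∧
      (x ∉ T → y ∉ T → ∃ j < M, s(v j, w j) = e ∧ ∃ h : γ ∈ U, g j = some ⟨γ, h⟩) := by
    intro e
    induction e using Sym2.ind with
    | _ a b =>
      by_cases hab : G.Adj a b
      swap
      · refine ⟨0, ?_⟩
        intro x y h hxy
        rcases Sym2.eq_iff.1 h with ⟨h1, h2⟩ | ⟨h1, h2⟩
        · rw [h1, h2] at hxy; exact absurd hxy hab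
        · rw [h1, h2] at hxy; exact absurd hxy.symm hab
      by_cases ha : a ∈ T
      · by_cases hb : b ∈ T
        · refine ⟨c₀ s(a, b), ?_⟩
          intro x y h hxy
          rcases Sym2.eq_iff.1 h with ⟨h1, h2⟩ | ⟨h1, h2⟩
          · subst h1 h2
            exact ⟨fun _ _ => rfl, fun _ h' => absurd hb h', fun h' => absurd ha h'⟩
          · subst h1 h2
            exact ⟨fun _ _ => rfl, fun _ h' => absurd ha h', fun h' => absurd hb h'⟩
        · obtain ⟨γ, hγ⟩ := hf a ha b hb hab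
          refine ⟨γ.1, ?_⟩
          intro x y h hxy
          rcases Sym2.eq_iff.1 h with ⟨h1, h2⟩ | ⟨h1, h2⟩
          · subst h1 h2
            exact ⟨fun _ h' => absurd h' hb, fun _ _ => ⟨γ.2, hγ⟩, fun h' => absurd ha h'⟩
          · subst h1 h2
            exact ⟨fun h' => absurd h' hb, fun h' => absurd h' hb, fun _ h' => absurd ha h'⟩
      · by_cases hb : b ∈ T
        · obtain ⟨γ, hγ⟩ := hf b hb a ha hab.symm
          refine ⟨γ.1, ?_⟩
          intro x y h hxy
          rcases Sym2.eq_iff.1 h with ⟨h1, h2⟩ | ⟨h1, h2⟩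
          · subst h1 h2
            exact ⟨fun h' => absurd h' ha, fun h' => absurd h' ha, fun _ h' => absurd hb h'⟩
          · subst h1 h2
            exact ⟨fun _ h' => absurd h' ha, fun _ _ => ⟨γ.2, hγ⟩, fun h' => absurd hb h'⟩
        · obtain ⟨j, hj, hjs⟩ := hlist a ha b hb hab
          obtain ⟨γ, hγ⟩ := hg j hj
          refine ⟨γ.1, ?_⟩
          intro x y h hxy
          rcases Sym2.eq_iff.1 h with ⟨h1, h2⟩ | ⟨h1, h2⟩
          · subst h1 h2
            exact ⟨fun h' => absurd h' ha, fun h' => absurd h' ha,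
              fun _ _ => ⟨j, hj, hjs, γ.2, hγ⟩⟩
          · subst h1 h2
            exact ⟨fun h' => absurd h' hb, fun h' => absurd h' hb,
              fun _ _ => ⟨j, hj, hjs, γ.2, hγ⟩⟩
  choose c hc using hex
  refine ⟨c, ?_, ?_, ?_⟩
  · intro x hx y hy hxy
    exact (hc s(x, y) x y rfl hxy).1 hx hy
  · intro x hx y hy hxy
    exact (hc s(x, y) x y rfl hxy).2.1 hx hy
  · intro x hx y hy hxy
    exact (hc s(x, y) x y rfl hxy).2.2 hx hy

lemma ext_subtype_card (U A : Finset ℕ) (h : A ⊆ U) :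
    (A.subtype (fun x => x ∈ U)).card = A.card := by
  rw [Finset.card_subtype, Finset.filter_true_of_mem]
  intro x hx
  exact h hx

theorem st_EXT (hC : ST_CORE) : ST_EXT := by
  classical
  intro V _ _ G _ ε T k hE L c₀ hL hc₀
  by_cases hn : Fintype.card V ≤ 1
  · refine ⟨c₀, fun _ _ _ _ _ => rfl, ?_, ?_⟩
    · intro x y h
      exact absurd (Fintype.card_le_one_iff.1 hn x y) h.ne
    · intro x y z h
      exact absurd (Fintype.card_le_one_iff.1 hn x y) h.ne
  push Not at hn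
  have hV : Nonempty V := Fintype.card_pos_iff.1 (by omega)
  obtain ⟨n, hndef⟩ : ∃ n : ℝ, n = (Fintype.card V : ℝ) := ⟨_, rfl⟩
  have hn2 : (2 : ℝ) ≤ n := by rw [hndef]; exact_mod_cast hn
  have hε := hE.pos
  have hε1 := hE.le_one
  have hk_le : (k : ℝ) ≤ n := by rw [hndef]; exact_mod_cast hE.k_le
  have hlog2 : (0.69 : ℝ) ≤ Real.log n := by
    have h1 := Real.log_two_gt_d9
    have h2 : Real.log 2 ≤ Real.log n := Real.log_le_log (by norm_num) hn2
    linarith
  have hklarge : 2 ^ 160 * Real.log n ≤ ε ^ 25 * k := by rw [hndef]; exact hE.k_large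
  have hε25 : (0 : ℝ) < ε ^ 25 := pow_pos hε 25
  have hLNle : ∀ x : ℝ, 2 ^ 160 * Real.log n ≤ ε ^ 25 * x →
      2 ^ 153 * (11 * Real.log n) ≤ ε ^ 25 * x := by
    intro x hx
    refine le_trans ?_ hx
    have : (2 : ℝ) ^ 153 * (11 * Real.log n) = 2 ^ 153 * 11 * Real.log n := by ring
    rw [this]
    apply mul_le_mul_of_nonneg_right (by norm_num) (by linarith)
  have hpos_of : ∀ x : ℝ, 2 ^ 160 * Real.log n ≤ ε ^ 25 * x → 0 < x := by
    intro x hx
    by_contra h
    push Not at h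
    have h1 : ε ^ 25 * x ≤ 0 := mul_nonpos_of_nonneg_of_nonpos hε25.le h
    have h2 : (0 : ℝ) < 2 ^ 160 * Real.log n := by
      apply mul_pos (by norm_num) (by linarith)
    linarith
  have hkpos : (0 : ℝ) < k := hpos_of k hklarge
  -- degrees
  obtain ⟨dT, hdT⟩ : ∃ dT : V → ℕ, ∀ t,
      dT t = ((G.neighborFinset t).filter (fun u => u ∈ T)).card := ⟨_, fun _ => rfl⟩
  obtain ⟨oT, hoT⟩ : ∃ oT : V → ℕ, ∀ t,
      oT t = ((G.neighborFinset t).filter (fun u => u ∉ T)).card := ⟨_, fun _ => rfl⟩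
  have hdeg : ∀ t, dT t + oT t = G.degree t := by
    intro t
    rw [hdT, hoT, ← SimpleGraph.card_neighborFinset_eq_degree]
    exact Finset.card_filter_add_card_filter_not _
  -- the vertices of T with a neighbour outside
  obtain ⟨D, hD1, hD2⟩ : ∃ D : V → ℕ,
      (∀ t, (t ∈ T ∧ ∃ r, r ∉ T ∧ G.Adj t r) → D t = k - dT t) ∧
      (∀ t, ¬ (t ∈ T ∧ ∃ r, r ∉ T ∧ G.Adj t r) → D t = k) :=
    ⟨fun t => if t ∈ T ∧ ∃ r, r ∉ T ∧ G.Adj t r then k - dT t else k,
      fun t ht => if_pos ht, fun t ht => if_neg ht⟩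
  have htight : ∀ t, (t ∈ T ∧ ∃ r, r ∉ T ∧ G.Adj t r) → G.degree t ≤ k ∧
      2 ^ 160 * Real.log n ≤ ε ^ 25 * ((k : ℝ) - dT t) := by
    rintro t ⟨ht, r, hr, htr⟩
    rw [hndef, hdT]
    exact hE.tight t ht r hr htr
  have hDcast : ∀ t, (t ∈ T ∧ ∃ r, r ∉ T ∧ G.Adj t r) → (D t : ℝ) = (k : ℝ) - dT t := by
    intro t ht
    have h1 := (htight t ht).1
    have h2 := hdeg t
    rw [hD1 t ht, Nat.cast_sub (by omega)]
  have hDlarge : ∀ t, 2 ^ 153 * (11 * Real.log n) ≤ ε ^ 25 * D t := by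
    intro t
    by_cases ht : t ∈ T ∧ ∃ r, r ∉ T ∧ G.Adj t r
    · rw [hDcast t ht]
      exact hLNle _ (htight t ht).2
    · rw [hD2 t ht]
      exact hLNle _ hklarge
  obtain ⟨N, hN, hNc⟩ : ∃ N : V → Finset V, (∀ t r, r ∈ N t ↔ (t ∈ T ∧ G.Adj t r ∧ r ∉ T)) ∧
      ∀ t, (N t).card ≤ D t := by
    refine ⟨fun t => if t ∈ T then (G.neighborFinset t).filter (fun u => u ∉ T) else ∅, ?_, ?_⟩
    · intro t r
      by_cases ht : t ∈ T
      · simp [ht]
      · simp [ht]
    · intro t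
      show (if t ∈ T then (G.neighborFinset t).filter (fun u => u ∉ T) else ∅).card ≤ D t
      by_cases ht : t ∈ T
      · rw [if_pos ht, ← hoT]
        by_cases hB : t ∈ T ∧ ∃ r, r ∉ T ∧ G.Adj t r
        · have h1 := (htight t hB).1
          have h2 := hdeg t
          rw [hD1 t hB]
          omega
        · have : oT t = 0 := by
            rw [hoT, Finset.card_eq_zero, Finset.filter_eq_empty_iff]
            intro u hu hu'
            apply hB
            exact ⟨ht, u, hu', by simpa using hu⟩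
          omega
      · rw [if_neg ht]; simp
  -- trimmed lists
  have hL' : ∀ e : Sym2 V, ∃ A : Finset ℕ, A ⊆ L e ∧ A.card ≤ k ∧ (k ≤ (L e).card → A.card = k) := by
    intro e
    by_cases h : k ≤ (L e).card
    · obtain ⟨A, hA, hAk⟩ := Finset.exists_subset_card_eq h
      exact ⟨A, hA, hAk.le, fun _ => hAk⟩
    · exact ⟨∅, Finset.empty_subset _, by simp, fun h' => absurd h' h⟩
  choose L' hL'1 hL'2 hL'3 using hL'
  obtain ⟨U, hU⟩ : ∃ U : Finset ℕ, U = (univ : Finset (Sym2 V)).biUnion L' := ⟨_, rfl⟩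
  have hLU : ∀ e, L' e ⊆ U := by
    intro e x hx
    rw [hU, Finset.mem_biUnion]
    exact ⟨e, Finset.mem_univ _, hx⟩
  have hUc : (U.card : ℝ) ≤ n ^ 3 := by
    have h1 : U.card ≤ Fintype.card (Sym2 V) * k := by
      rw [hU]
      refine le_trans Finset.card_biUnion_le ?_
      refine le_trans (Finset.sum_le_sum fun e _ => hL'2 e) ?_
      rw [Finset.sum_const, smul_eq_mul, Finset.card_univ]
    have h2 : U.card ≤ Fintype.card V ^ 2 * Fintype.card V :=
      h1.trans (Nat.mul_le_mul (ext_symcard V) hE.k_le)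
    have h3 : (U.card : ℝ) ≤ (Fintype.card V : ℝ) ^ 2 * Fintype.card V := by exact_mod_cast h2
    rw [hndef]
    calc (U.card : ℝ) ≤ (Fintype.card V : ℝ) ^ 2 * Fintype.card V := h3
      _ = (Fintype.card V : ℝ) ^ 3 := by ring
  -- lists at the stars
  have hLt : ∀ t r : V, ∃ A : Finset ℕ, A ⊆ L' s(t, r) \
      ((G.neighborFinset t).filter (fun u => u ∈ T)).image (fun u => c₀ s(t, u)) ∧
      (t ∈ T → G.Adj t r → r ∉ T → A.card = D t) := by
    intro t r
    by_cases h : t ∈ T ∧ G.Adj t r ∧ r ∉ T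
    · obtain ⟨ht, htr, hr⟩ := h
      have h1 : (L' s(t, r)).card = k := hL'3 _ (hL t r htr fun h' => hr h'.2)
      have h2 : (((G.neighborFinset t).filter (fun u => u ∈ T)).image
          (fun u => c₀ s(t, u))).card ≤ dT t := by
        rw [hdT]; exact Finset.card_image_le
      have h3 := Finset.le_card_sdiff (((G.neighborFinset t).filter (fun u => u ∈ T)).image
          (fun u => c₀ s(t, u))) (L' s(t, r))
      have h4 : D t ≤ (L' s(t, r) \ ((G.neighborFinset t).filter (fun u => u ∈ T)).image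
          (fun u => c₀ s(t, u))).card := by
        rw [hD1 t ⟨ht, r, hr, htr⟩]
        omega
      obtain ⟨A, hA, hAk⟩ := Finset.exists_subset_card_eq h4
      exact ⟨A, hA, fun _ _ _ => hAk⟩
    · exact ⟨∅, Finset.empty_subset _, fun h1 h2 h3 => absurd ⟨h1, h2, h3⟩ h⟩
  choose Lt hLt1 hLt2 using hLt
  -- the edges outside
  obtain ⟨S, hS⟩ : ∃ S : Finset (Sym2 V), ∀ x y, s(x, y) ∈ S ↔ (G.Adj x y ∧ x ∉ T ∧ y ∉ T) := by
    refine ⟨univ.filter (fun e => e ∈ G.edgeSet ∧ ∀ x ∈ e, x ∉ T), ?_⟩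
    intro x y
    simp
  obtain ⟨v, w, hvw1, hvw2, hvw3⟩ := ext_list S
  have hvw1' : ∀ j < S.card, G.Adj (v j) (w j) ∧ v j ∉ T ∧ w j ∉ T := fun j hj =>
    (hS _ _).1 (hvw1 j hj)
  have hMc : (S.card : ℝ) ≤ n ^ 2 := by
    have h1 : S.card ≤ Fintype.card (Sym2 V) := Finset.card_le_univ S
    have h2 := h1.trans (ext_symcard V)
    rw [hndef]; exact_mod_cast h2
  -- slack
  have hslack : ∀ r, ∑ t, (if r ∈ N t then 1 / (D t : ℝ) else 0) +
      ∑ j ∈ range S.card, (if v j = r ∨ w j = r then 1 / (k : ℝ) else 0) ≤ 1 - ε := by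
    intro r
    by_cases hr : r ∈ T
    · have h1 : ∑ t, (if r ∈ N t then 1 / (D t : ℝ) else 0) = 0 := by
        apply Finset.sum_eq_zero
        intro t _
        rw [if_neg]
        intro h
        exact ((hN t r).1 h).2.2 hr
      have h2 : ∑ j ∈ range S.card, (if v j = r ∨ w j = r then 1 / (k : ℝ) else 0) = 0 := by
        apply Finset.sum_eq_zero
        intro j hj
        rw [Finset.mem_range] at hj
        rw [if_neg]
        rintro (h | h)
        · exact (hvw1' j hj).2.1 (by rw [h]; exact hr)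
        · exact (hvw1' j hj).2.2 (by rw [h]; exact hr)
      rw [h1, h2]; linarith
    · have h0 := hE.slack r hr
      have h1 : ∑ t, (if r ∈ N t then 1 / (D t : ℝ) else 0) =
          ∑ t ∈ (G.neighborFinset r).filter (fun u => u ∈ T),
            1 / ((k : ℝ) - ((G.neighborFinset t).filter (fun u => u ∈ T)).card) := by
        rw [← Finset.sum_filter]
        have h2 : (univ.filter (fun t => r ∈ N t)) = (G.neighborFinset r).filter (fun u => u ∈ T) := by
          ext t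
          rw [Finset.mem_filter, Finset.mem_filter, hN, SimpleGraph.mem_neighborFinset]
          constructor
          · rintro ⟨_, ht, htr, _⟩
            exact ⟨htr.symm, ht⟩
          · rintro ⟨hrt, ht⟩
            exact ⟨Finset.mem_univ _, ht, hrt.symm, hr⟩
        rw [h2]
        apply Finset.sum_congr rfl
        intro t ht
        rw [Finset.mem_filter, SimpleGraph.mem_neighborFinset] at ht
        rw [hDcast t ⟨ht.2, r, hr, ht.1.symm⟩, hdT]
      have h2 : ∑ j ∈ range S.card, (if v j = r ∨ w j = r then 1 / (k : ℝ) else 0) ≤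
          (((G.neighborFinset r).filter (fun u => u ∉ T)).card : ℝ) / k := by
        rw [← Finset.sum_filter, Finset.sum_const, nsmul_eq_mul, mul_one_div]
        apply div_le_div_of_nonneg_right _ hkpos.le
        exact_mod_cast ext_deg G T S.card v w hvw1' hvw2 r
      rw [h1]
      linarith
  obtain ⟨f, g, hf0, hf1, hf2, hf3, hg1, hg2, hfg⟩ := hC V V {x // x ∈ U} ε (11 * Real.log n) N D
    (fun t r => (Lt t r).subtype (fun x => x ∈ U)) S.card v w
    (fun j => (L' s(v j, w j)).subtype (fun x => x ∈ U)) (fun _ => k) hε hε1 (by linarith)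
    (by
      have h1 : Real.exp (11 * Real.log n) = n ^ 11 := by
        rw [show (11 : ℝ) * Real.log n = ((11 : ℕ) : ℝ) * Real.log n by norm_num,
          Real.exp_nat_mul, Real.exp_log (by linarith)]
      rw [h1, Fintype.card_coe, ← hndef]
      exact ext_count n _ _ hn2 (Nat.cast_nonneg _) hUc hMc)
    hNc
    (by
      intro t r hr
      obtain ⟨ht, htr, hr'⟩ := (hN t r).1 hr
      rw [ext_subtype_card U _ (fun x hx => hLU _ (Finset.mem_sdiff.1 (hLt1 t r hx)).1)]
      exact hLt2 t r ht htr hr')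
    hDlarge
    (by
      intro j hj
      obtain ⟨h1, h2, h3⟩ := hvw1' j hj
      refine ⟨h1.ne, ?_, hLNle _ hklarge⟩
      rw [ext_subtype_card U _ (hLU _)]
      exact hL'3 _ (hL _ _ h1 fun h' => h2 h'.1))
    (by
      intro i hi j hj hij h
      exact hvw2 i hi j hj hij (Sym2.eq_iff.2 h))
    hslack
  obtain ⟨c, hc1, hc2, hc3⟩ := ext_glue G T U c₀ S.card v w f g
    (fun t ht r hr htr => by
      obtain ⟨γ, _, h⟩ := hf1 t r ((hN t r).2 ⟨ht, htr, hr⟩)
      exact ⟨γ, h⟩)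
    (fun j hj => by
      obtain ⟨γ, _, h⟩ := hg1 j hj
      exact ⟨γ, h⟩)
    (fun x hx y hy hxy => hvw3 _ ((hS x y).2 ⟨hxy, hx, hy⟩))
  -- star colours belong to the lists at the stars
  have hstar : ∀ x ∈ T, ∀ y ∉ T, G.Adj x y → c s(x, y) ∈ Lt x y := by
    intro x hx y hy hxy
    obtain ⟨h, h1⟩ := hc2 x hx y hy hxy
    obtain ⟨γ, hγ, h2⟩ := hf1 x y ((hN x y).2 ⟨hx, hxy, hy⟩)
    rw [h1] at h2
    have h3 := Option.some.inj h2
    rw [Finset.mem_subtype, ← h3] at hγ
    exact hγ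
  have hmem : ∀ x ∈ T, ∀ y ∉ T, G.Adj x y → c s(x, y) ∈ L s(x, y) := by
    intro x hx y hy hxy
    exact hL'1 _ (Finset.mem_sdiff.1 (hLt1 x y (hstar x hx y hy hxy))).1
  -- properness, the cases
  have hA : ∀ x ∈ T, ∀ y ∈ T, ∀ z ∉ T, G.Adj x y → G.Adj x z → c s(x, y) ≠ c s(x, z) := by
    intro x hx y hy z hz hxy hxz h
    have h1 := (Finset.mem_sdiff.1 (hLt1 x z (hstar x hx z hz hxz))).2
    apply h1
    rw [Finset.mem_image]
    refine ⟨y, ?_, ?_⟩
    · rw [Finset.mem_filter, SimpleGraph.mem_neighborFinset]; exact ⟨hxy, hy⟩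
    · rw [← hc1 x hx y hy hxy]; exact h
  have hB : ∀ x ∉ T, ∀ y ∈ T, ∀ z ∉ T, G.Adj x y → G.Adj x z → c s(x, y) ≠ c s(x, z) := by
    intro x hx y hy z hz hxy hxz h
    obtain ⟨j, hj, hjs, h1, h2⟩ := hc3 x hx z hz hxz
    obtain ⟨h3, h4⟩ := hc2 y hy x hx hxy.symm
    have h5 : v j = x ∨ w j = x := by
      rcases Sym2.eq_iff.1 hjs with ⟨h6, _⟩ | ⟨_, h6⟩
      · exact Or.inl h6
      · exact Or.inr h6
    apply hfg y x j hj h5 _ h4
    rw [h2]
    congr 2
    rw [← h, Sym2.eq_swap]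
  refine ⟨c, hc1, ?_, ?_⟩
  · intro x y hxy hT
    by_cases hx : x ∈ T
    · exact hmem x hx y (fun hy => hT ⟨hx, hy⟩) hxy
    · by_cases hy : y ∈ T
      · have := hmem y hy x hx hxy.symm
        rw [Sym2.eq_swap] at this
        exact this
      · obtain ⟨j, hj, hjs, h1, h2⟩ := hc3 x hx y hy hxy
        obtain ⟨γ, hγ, h3⟩ := hg1 j hj
        rw [h2] at h3
        have h4 := Option.some.inj h3
        rw [Finset.mem_subtype, ← h4, hjs] at hγ
        exact hL'1 _ hγ
  · intro x y z hxy hxz hyz h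
    by_cases hx : x ∈ T
    · by_cases hy : y ∈ T
      · by_cases hz : z ∈ T
        · rw [hc1 x hx y hy hxy, hc1 x hx z hz hxz] at h
          exact hc₀ x hx y hy z hz hxy hxz hyz h
        · exact hA x hx y hy z hz hxy hxz h
      · by_cases hz : z ∈ T
        · exact hA x hx z hz y hy hxz hxy h.symm
        · obtain ⟨h1, h2⟩ := hc2 x hx y hy hxy
          obtain ⟨h3, h4⟩ := hc2 x hx z hz hxz
          apply hyz
          apply hf2 x y z _ h2
          rw [h4]
          congr 2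
          exact h.symm
    · by_cases hy : y ∈ T
      · by_cases hz : z ∈ T
        · obtain ⟨h1, h2⟩ := hc2 y hy x hx hxy.symm
          obtain ⟨h3, h4⟩ := hc2 z hz x hx hxz.symm
          apply hyz
          apply hf3 y z x _ h2
          rw [h4]
          congr 2
          rw [Sym2.eq_swap, ← h, Sym2.eq_swap]
        · exact hB x hx y hy z hz hxy hxz h
      · by_cases hz : z ∈ T
        · exact hB x hx z hz y hy hxz hxy h.symm
        · obtain ⟨i, hi, his, h1, h2⟩ := hc3 x hx y hy hxy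
          obtain ⟨j, hj, hjs, h3, h4⟩ := hc3 x hx z hz hxz
          have hij : i ≠ j := by
            rintro rfl
            rw [his] at hjs
            rcases Sym2.eq_iff.1 hjs with ⟨_, h5⟩ | ⟨h5, h6⟩
            · exact hyz h5
            · exact hxz.ne h5
          have hsh : v i = v j ∨ v i = w j ∨ w i = v j ∨ w i = w j := by
            rcases Sym2.eq_iff.1 his with ⟨a1, _⟩ | ⟨_, a1⟩
            · rcases Sym2.eq_iff.1 hjs with ⟨b1, _⟩ | ⟨_, b1⟩
              · exact Or.inl (a1.trans b1.symm)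
              · exact Or.inr (Or.inl (a1.trans b1.symm))
            · rcases Sym2.eq_iff.1 hjs with ⟨b1, _⟩ | ⟨_, b1⟩
              · exact Or.inr (Or.inr (Or.inl (a1.trans b1.symm)))
              · exact Or.inr (Or.inr (Or.inr (a1.trans b1.symm)))
          apply hg2 i hi j hj hij hsh
          rw [h2, h4]
          congr 2

end Pool.Agent.Helper21.LQ
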